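import Mathlib

/-!
Formulas with AND and OR gates of unbounded fan-in and negations.
-/

set_option autoImplicit false

namespace Pool.Agent.Y603.PK

/-- Formulas over the variables `ι` with negations and with AND and OR gates of any number of
inputs. -/
inductive Fm (ι : Type) : Type
  | lit (i : ι) : Fm ι
  | neg (φ : Fm ι) : Fm ι
  | all (n : ℕ) (φ : Fin n → Fm ι) : Fm ι
  | any (n : ℕ) (φ : Fin n → Fm ι) : Fm ι

namespace Fm

variable {ι κ : Type}

/-- The truth value of a formula. -/
def eval (v : ι → Prop) : Fm ι → Prop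
  | lit i => v i
  | neg φ => ¬ eval v φ
  | all _ φ => ∀ k, eval v (φ k)
  | any _ φ => ∃ k, eval v (φ k)

/-- The number of AND and OR gates on a path (negations are free). -/
def depth : Fm ι → ℕ
  | lit _ => 0
  | neg φ => depth φ
  | all _ φ => 1 + Finset.univ.sup fun k => depth (φ k)
  | any _ φ => 1 + Finset.univ.sup fun k => depth (φ k)

/-- The number of variables, negations and gates. -/
def size : Fm ι → ℕ
  | lit _ => 1
  | neg φ => 1 + size φ
  | all _ φ => 1 + ∑ k, size (φ k)
  | any _ φ => 1 + ∑ k, size (φ k)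

/-- Substitution. -/
def bind (g : ι → Fm κ) : Fm ι → Fm κ
  | lit i => g i
  | neg φ => neg (bind g φ)
  | all n φ => all n fun k => bind g (φ k)
  | any n φ => any n fun k => bind g (φ k)

lemma eval_bind (g : ι → Fm κ) (v : κ → Prop) (φ : Fm ι) :
    (φ.bind g).eval v ↔ φ.eval fun i => (g i).eval v := by
  induction φ with
  | lit i => rfl
  | neg φ ih => simp [bind, eval, ih]
  | all n φ ih => simp [bind, eval, ih]
  | any n φ ih => simp [bind, eval, ih]

lemma eval_congr {v v' : ι → Prop} (h : ∀ i, v i ↔ v' i) (φ : Fm ι) : φ.eval v ↔ φ.eval v' := by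
  have : v = v' := funext fun i => propext (h i)
  rw [this]

end Fm

end Pool.Agent.Y603.PK
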